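import Pool.Agent.Lib.MP_0880e2_an.Readings

open MeasureTheory
open scoped ENNReal

namespace Pool.Agent.Results.MP_0880e2_an.AllReadings

open Pool.Agent.Lib.MP_0880e2_an

/-- Let `C` be a class of partitions of the line into intervals that contains every partition into
intervals with more than one point.  Lower decompositions on the circle and on the line (for the
class `C`) are equivalent; so are upper decompositions if the one-point parts of each partition in
`C` form a null set; if `C` contains the partition into points, the upper equivalence fails. -/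
theorem result (X : Type*) [NormedAddCommGroup X] [NormedSpace ℂ X] [CompleteSpace X]
    (p q : ℝ≥0∞) (hp : 1 ≤ p) (hq : 1 ≤ q) (C : Set (Set (Set ℝ)))
    (hC : ∀ P ∈ C, IsIntervalPartition P)
    (hC' : ∀ P, IsIntervalPartition P → (∀ I ∈ P, I.Nontrivial) → P ∈ C) :
    (LowerCircle X p q ↔ LowerOn X C p q) ∧
      ((∀ P ∈ C, volume {x : ℝ | {x} ∈ P} = 0) → (UpperCircle X p q ↔ UpperOn X C p q)) ∧
      (Set.range singleton ∈ C → Nontrivial X → UpperCircle X p 1 ∧ ¬ UpperOn X C p 1) :=
  ⟨⟨lowerOn_of_lowerCircle hp hq hC, lowerCircle_of_lowerOn hp hq hC'⟩,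
    fun hN => ⟨upperOn_of_upperCircle hp hq hC hN, upperCircle_of_upperOn hp hq hC'⟩,
    fun h _ => ⟨upperCircle_one hp, not_upperOn hp le_rfl h⟩⟩

end Pool.Agent.Results.MP_0880e2_an.AllReadings
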